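import Pool.Agent.E8helper19.EN.Stm

set_option autoImplicit false
open MeasureTheory Filter Topology Set
open scoped ENNReal

namespace Pool.Agent.E8helper8.EN

open Pool.Agent.E8helper19.EN

noncomputable section

/-- the cut-off -/
def chi (R x : ℝ) : ℝ := max 0 (min 1 (2 - |x| / R))

theorem chi_cont (R : ℝ) : Continuous (chi R) := by
  unfold chi
  exact continuous_const.max (continuous_const.min
    (continuous_const.sub (continuous_abs.div_const R)))

theorem chi_nonneg (R x : ℝ) : 0 ≤ chi R x := le_max_left _ _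

theorem chi_le (R x : ℝ) : chi R x ≤ 1 := max_le zero_le_one (min_le_left _ _)

theorem chi_one {R x : ℝ} (hR : 0 < R) (hx : |x| ≤ R) : chi R x = 1 := by
  have h : |x| / R ≤ 1 := (div_le_one hR).2 hx
  unfold chi
  rw [min_eq_left (by linarith), max_eq_right zero_le_one]

theorem chi_zero {R x : ℝ} (hR : 0 < R) (hx : 2 * R ≤ |x|) : chi R x = 0 := by
  have h : 2 ≤ |x| / R := (le_div_iff₀ hR).2 hx
  unfold chi
  exact max_eq_left ((min_le_right _ _).trans (by linarith))

theorem chi_supp {R : ℝ} (hR : 0 < R) (g : ℝ → ℝ) : HasCompactSupport (fun x => g x * chi R x) := by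
  refine HasCompactSupport.intro (isCompact_Icc : IsCompact (Icc (-(2 * R)) (2 * R))) ?_
  intro x hx
  rw [chi_zero hR, mul_zero]
  by_contra h
  exact hx (abs_le.1 (not_le.1 h).le)

theorem int_chi {R : ℝ} (hR : 0 < R) {g : ℝ → ℝ} (hg : Continuous g) (μ : Measure ℝ)
    [IsFiniteMeasure μ] : Integrable (fun x => g x * chi R x) μ :=
  (hg.mul (chi_cont R)).integrable_of_hasCompactSupport (chi_supp hR g)

theorem const_nonneg {F : ℝ → ℝ} {C : ℝ} (hC : ∀ x, |F x| ≤ C * (1 + |x|)) : 0 ≤ C := by
  have h := hC 0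
  rw [abs_zero, add_zero, mul_one] at h
  exact (abs_nonneg _).trans h

theorem int_F {μ : Measure ℝ} [IsFiniteMeasure μ] {C : ℝ} {F : ℝ → ℝ} (hF : Continuous F)
    (hC : ∀ x, |F x| ≤ C * (1 + |x|)) (hi : Integrable (fun x => x ^ 2) μ) : Integrable F μ := by
  have hC0 := const_nonneg hC
  refine Integrable.mono' (g := fun x => C * (2 + x ^ 2))
    (((integrable_const (2 : ℝ)).add hi).const_mul C) hF.aestronglyMeasurable ?_
  refine Eventually.of_forall fun x => ?_
  rw [Real.norm_eq_abs]
  refine (hC x).trans (mul_le_mul_of_nonneg_left ?_ hC0)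
  nlinarith [sq_abs x, sq_nonneg (|x| - 1), abs_nonneg x]

theorem tail {μ : Measure ℝ} [IsFiniteMeasure μ] {m C R : ℝ} {F : ℝ → ℝ} (hF : Continuous F)
    (hC : ∀ x, |F x| ≤ C * (1 + |x|)) (hR : 1 ≤ R) (hi : Integrable (fun x => x ^ 2) μ)
    (hm : ∫ x, x ^ 2 ∂μ ≤ m) :
    |∫ x, F x ∂μ - ∫ x, F x * chi R x ∂μ| ≤ 2 * C / R * m := by
  have hR0 : 0 < R := by linarith
  have hC0 := const_nonneg hC
  have hF1 := int_F hF hC hi
  have hF2 := int_chi hR0 hF μ
  rw [← integral_sub hF1 hF2]
  calc |∫ x, (F x - F x * chi R x) ∂μ| ≤ ∫ x, |F x - F x * chi R x| ∂μ :=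
        abs_integral_le_integral_abs
    _ ≤ ∫ x, 2 * C / R * x ^ 2 ∂μ := by
        refine integral_mono (hF1.sub hF2).abs (hi.const_mul _) ?_
        intro x
        change |F x - F x * chi R x| ≤ 2 * C / R * x ^ 2
        have h1 : F x - F x * chi R x = F x * (1 - chi R x) := by ring
        have h2 : 0 ≤ 1 - chi R x := by linarith [chi_le R x]
        rw [h1, abs_mul, abs_of_nonneg h2]
        have h5 : 0 ≤ 2 * C / R * x ^ 2 := by positivity
        by_cases hx : |x| ≤ R
        · rw [chi_one hR0 hx, sub_self, mul_zero]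
          exact h5
        · have h3 : R < |x| := not_le.1 hx
          calc |F x| * (1 - chi R x) ≤ |F x| * 1 :=
                mul_le_mul_of_nonneg_left (by linarith [chi_nonneg R x]) (abs_nonneg _)
            _ ≤ C * (1 + |x|) := by rw [mul_one]; exact hC x
            _ ≤ C * (2 * |x|) := mul_le_mul_of_nonneg_left (by linarith) hC0
            _ ≤ C * (2 * |x| * (|x| / R)) := by
                refine mul_le_mul_of_nonneg_left ?_ hC0
                have h4 : 1 ≤ |x| / R := (one_le_div hR0).2 h3.le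
                nlinarith [abs_nonneg x]
            _ = 2 * C / R * x ^ 2 := by
                rw [← sq_abs x]
                ring
    _ = 2 * C / R * ∫ x, x ^ 2 ∂μ := integral_const_mul _ _
    _ ≤ 2 * C / R * m := mul_le_mul_of_nonneg_left hm (by positivity)

theorem t_VAG : S_VAG := by
  intro μ ν m A hμ hν hev hA hv
  have hm0 : 0 ≤ m := by
    obtain ⟨n, hn⟩ := hev.exists
    exact (integral_nonneg fun x => sq_nonneg x).trans hn.2
  -- the second moment of `ν`
  have h1 : ∀ R : ℝ, 0 < R → ∫ x, x ^ 2 * chi R x ∂ν ≤ m := by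
    intro R hR
    refine le_of_tendsto (hv (fun x => x ^ 2 * chi R x) ((continuous_pow 2).mul (chi_cont R))
      (chi_supp hR _)) ?_
    filter_upwards [hev] with n hn
    refine le_trans (integral_mono (int_chi hR (continuous_pow 2) (μ n)) hn.1 ?_) hn.2
    intro x
    exact mul_le_of_le_one_right (sq_nonneg x) (chi_le R x)
  have h2 : ∫⁻ x, ENNReal.ofReal (x ^ 2) ∂ν ≤ ENNReal.ofReal m := by
    have h3 : ∀ x : ℝ, Tendsto (fun k : ℕ => ENNReal.ofReal (x ^ 2 * chi ((k : ℝ) + 1) x)) atTop
        (𝓝 (ENNReal.ofReal (x ^ 2))) := by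
      intro x
      refine tendsto_const_nhds.congr' ?_
      obtain ⟨k0, hk0⟩ := exists_nat_ge |x|
      filter_upwards [eventually_ge_atTop k0] with k hk
      have h4 : (k0 : ℝ) ≤ k := by exact_mod_cast hk
      rw [chi_one (by positivity) (by linarith), mul_one]
    calc ∫⁻ x, ENNReal.ofReal (x ^ 2) ∂ν
        = ∫⁻ x, liminf (fun k : ℕ => ENNReal.ofReal (x ^ 2 * chi ((k : ℝ) + 1) x)) atTop ∂ν := by
          refine lintegral_congr fun x => ?_
          exact (h3 x).liminf_eq.symm
      _ ≤ liminf (fun k : ℕ => ∫⁻ x, ENNReal.ofReal (x ^ 2 * chi ((k : ℝ) + 1) x) ∂ν) atTop := by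
          refine lintegral_liminf_le fun k => ?_
          exact (((continuous_pow 2).mul (chi_cont _)).measurable).ennreal_ofReal
      _ ≤ ENNReal.ofReal m := by
          refine liminf_le_of_le (by isBoundedDefault) ?_
          intro b hb
          obtain ⟨k, hk⟩ := hb.exists
          refine hk.trans ?_
          have hk0 : (0 : ℝ) < (k : ℝ) + 1 := by positivity
          rw [← ofReal_integral_eq_lintegral_ofReal (int_chi hk0 (continuous_pow 2) ν)
            (Eventually.of_forall fun x => mul_nonneg (sq_nonneg x) (chi_nonneg _ x))]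
          exact ENNReal.ofReal_le_ofReal (h1 _ hk0)
  have h5 : Integrable (fun x : ℝ => x ^ 2) ν := by
    refine ⟨(continuous_pow 2).aestronglyMeasurable, ?_⟩
    rw [hasFiniteIntegral_iff_ofReal (Eventually.of_forall fun x => sq_nonneg x)]
    exact h2.trans_lt ENNReal.ofReal_lt_top
  have h6 : ∫ x, x ^ 2 ∂ν ≤ m := by
    rw [integral_eq_lintegral_of_nonneg_ae (Eventually.of_forall fun x => sq_nonneg x)
      (continuous_pow 2).aestronglyMeasurable]
    exact ENNReal.toReal_le_of_le_ofReal hm0 h2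
  -- convergence
  have h7 : ∀ F : ℝ → ℝ, Continuous F → (∃ C : ℝ, ∀ x, |F x| ≤ C * (1 + |x|)) →
      Tendsto (fun n => ∫ x, F x ∂(μ n)) atTop (𝓝 (∫ x, F x ∂ν)) := by
    rintro F hF ⟨C, hC⟩
    have hC0 := const_nonneg hC
    rw [Metric.tendsto_nhds]
    intro ε hε
    set R : ℝ := 1 + 6 * C * m / ε with hR
    have hR1 : 1 ≤ R := by
      have : 0 ≤ 6 * C * m / ε := by positivity
      linarith
    have hR0 : 0 < R := by linarith
    have h8 : 2 * C / R * m < ε / 3 := by
      rw [div_mul_eq_mul_div, div_lt_iff₀ hR0, hR]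
      have h9 : ε / 3 * (1 + 6 * C * m / ε) = ε / 3 + 2 * C * m := by
        field_simp
        ring
      rw [h9]
      linarith
    have h10 := hv (fun x => F x * chi R x) (hF.mul (chi_cont R)) (chi_supp hR0 F)
    rw [Metric.tendsto_nhds] at h10
    filter_upwards [h10 (ε / 3) (by positivity), hev] with n hn1 hn2
    have h11 := tail (μ := μ n) hF hC hR1 hn2.1 hn2.2
    have h12 := tail (μ := ν) hF hC hR1 h5 h6
    rw [Real.dist_eq] at hn1 ⊢
    rw [abs_le] at h11 h12
    rw [abs_lt] at hn1 ⊢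
    constructor <;> linarith [hn1.1, hn1.2, h11.1, h11.2, h12.1, h12.2]
  refine ⟨?_, h5, h6, h7⟩
  have h13 := h7 (fun _ => 1) continuous_const ⟨1, fun x => by
    rw [abs_one, one_mul]
    linarith [abs_nonneg x]⟩
  have h14 : ∀ n, ∫ _x, (1 : ℝ) ∂(μ n) = A := by
    intro n
    rw [integral_const, smul_eq_mul, mul_one, hA n]
  simp only [h14] at h13
  have h15 := tendsto_nhds_unique tendsto_const_nhds h13
  rw [integral_const, smul_eq_mul, mul_one] at h15
  exact h15.symm

end

end Pool.Agent.E8helper8.EN
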